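import Mathlib
import Pool.Agent.Lib.lead.CfgLib
import Pool.Agent.Lib.lead.RegM

set_option autoImplicit false

namespace Pool.Agent.Results.MP_88f7c7_lc.Undecidable

/-- The finite subword of length `len` of `x` starting at position `i`. -/
def window {S : Type} (x : ℤ → S) (i : ℤ) (len : ℕ) : List S :=
  (List.range len).map fun k : ℕ => x (i + k)

/-- The subshift generated by the substitution `τ`. -/
def subshift {S : Type} (τ : S → List S) : Set (ℤ → S) :=
  {x | ∀ (i : ℤ) (len : ℕ), ∃ (n : ℕ) (a : S),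
    window x i len <:+: (fun w : List S => w.flatMap τ)^[n] [a]}

/-- The language of a subshift. -/
def lang {S : Type} (X : Set (ℤ → S)) : Set (List S) :=
  {w | ∃ x ∈ X, ∃ i : ℤ, w = window x i w.length}

/-- The context-free grammar described by a start symbol and a list of rules; nonterminals are
natural numbers, `Sum.inl` marks terminals and `Sum.inr` nonterminals. -/
def toCFG {S : Type} [DecidableEq S] (c : ℕ × List (ℕ × List (S ⊕ ℕ))) : ContextFreeGrammar S :=
  ⟨ℕ, c.1, (c.2.map fun r =>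
    (⟨r.1, r.2.map (Sum.elim Symbol.terminal Symbol.nonterminal)⟩ : ContextFreeRule S ℕ)).toFinset⟩

/-- The substitution `0 ↦ 010`, `1 ↦ 212`, `2 ↦ 23`, `3 ↦ 3`. -/
def tau : Fin 4 → List (Fin 4) := ![[0, 1, 0], [2, 1, 2], [2, 3], [3]]

open LeadCfg LeadReg

lemma biinf {S : Type} [Inhabited S] (u l r : ℕ → List S)
    (h : ∀ j, u (j + 1) = l j ++ u j ++ r j) (hl : ∀ j, l j ≠ []) (hr : ∀ j, r j ≠ [])
    (h0 : u 0 ≠ []) : ∃ x : ℤ → S, window x 0 (u 0).length = u 0 ∧
      ∀ i len, ∃ j, window x i len <:+: u j := by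
  obtain ⟨o, o0, os⟩ : ∃ o : ℕ → ℕ, o 0 = 0 ∧ ∀ j, o (j + 1) = o j + (l j).length :=
    ⟨fun j => Nat.rec 0 (fun j p => p + (l j).length) j, rfl, fun j => rfl⟩
  have hb : ∀ j, j ≤ o j ∧ o j + j + 1 ≤ (u j).length := by
    intro j
    induction j with
    | zero => have := List.length_pos_iff.mpr h0; omega
    | succ j ih =>
      have := List.length_pos_iff.mpr (hl j)
      have := List.length_pos_iff.mpr (hr j)
      rw [os, h, List.length_append, List.length_append]
      omega
  let val : ℕ → ℤ → S := fun j z => (u j).getD (Int.toNat (z + Nat.cast (o j))) default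
  have st : ∀ j (z : ℤ), 0 ≤ z + o j → z + o j < (u j).length → ∀ d,
      val (j + d) z = val j z ∧ 0 ≤ z + o (j + d) ∧ z + o (j + d) < (u (j + d)).length := by
    intro j z h1 h2 d
    induction d with
    | zero => exact ⟨rfl, h1, h2⟩
    | succ d ih =>
      obtain ⟨i1, i2, i3⟩ := ih
      rw [← add_assoc]
      refine ⟨?_, ?_, ?_⟩
      · rw [← i1]
        simp only [val, os, h]
        rw [List.getD_append _ _ _ _ (by rw [List.length_append]; omega),
          List.getD_append_right _ _ _ _ (by omega)]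
        congr 1
        omega
      · rw [os]; omega
      · rw [os, h, List.length_append, List.length_append]; omega
  have st2 : ∀ j (z : ℤ), 0 ≤ z + o j → z + o j < (u j).length → val z.natAbs z = val j z := by
    intro j z h1 h2
    have := hb z.natAbs
    rcases le_total j z.natAbs with hj | hj
    · obtain ⟨d, hd⟩ := Nat.exists_eq_add_of_le hj
      rw [hd]; exact (st j z h1 h2 d).1
    · obtain ⟨d, hd⟩ := Nat.exists_eq_add_of_le hj
      rw [hd]; exact (st _ z (by omega) (by omega) d).1.symm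
  have win : ∀ j (i : ℤ) (len : ℕ), 0 ≤ i + o j → i + o j + len ≤ (u j).length →
      window (fun z => val z.natAbs z) i len = ((u j).drop (i + o j).toNat).take len := by
    intro j i len h1 h2
    apply List.ext_getElem
    · simp [window]; omega
    · intro k hk hk'
      simp only [window, List.length_map, List.length_range] at hk
      simp only [window, List.getElem_map, List.getElem_range, List.getElem_take,
        List.getElem_drop]
      rw [st2 j _ (by omega) (by omega)]
      simp only [val]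
      rw [List.getD_eq_getElem _ _ (by omega)]
      congr 1
      omega
  refine ⟨fun z => val z.natAbs z, ?_, fun i len => ⟨i.natAbs + len, ?_⟩⟩
  · rw [win 0 0 _ (by simp [o0]) (by simp [o0])]
    simp [o0]
  · have := hb (i.natAbs + len)
    rw [win (i.natAbs + len) i len (by omega) (by omega)]
    exact (List.take_prefix _ _).isInfix.trans (List.drop_suffix _ _).isInfix

abbrev T := Fin 4

def sub (w : List T) : List T := w.flatMap tau

def enc (l : List ℕ) : List T := l.flatMap fun i => 2 :: List.replicate i 3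

def Rm (m : ℕ) : List T := enc (List.range m).reverse ++ 1 :: enc (List.range m)

def ages : ℕ → List ℕ
  | 0 => []
  | n + 1 => ages n ++ n :: ages n

def blocks (l : List ℕ) : List T := l.flatMap fun m => Rm m ++ [0]

def W (n : ℕ) : List T := 0 :: blocks (ages n)

lemma sub_rep (i : ℕ) : sub (List.replicate i 3) = List.replicate i 3 := by
  induction i with
  | zero => rfl
  | succ i ih => rw [List.replicate_succ, sub, List.flatMap_cons, ← sub, ih]; rfl

lemma sub_append (u v : List T) : sub (u ++ v) = sub u ++ sub v := List.flatMap_append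

lemma sub_cons (a : T) (v : List T) : sub (a :: v) = tau a ++ sub v := List.flatMap_cons

lemma enc_cons (i : ℕ) (l : List ℕ) : enc (i :: l) = 2 :: (List.replicate i 3 ++ enc l) := rfl

lemma enc_append (l l' : List ℕ) : enc (l ++ l') = enc l ++ enc l' := List.flatMap_append

lemma sub_enc (l : List ℕ) : sub (enc l) = enc (l.map Nat.succ) := by
  induction l with
  | nil => rfl
  | cons i l ih => rw [enc_cons, sub_cons, sub_append, sub_rep, ih]; rfl

lemma sub_Rm (m : ℕ) : sub (Rm m) = Rm (m + 1) := by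
  rw [Rm, sub_append, sub_cons, sub_enc, sub_enc, Rm, List.range_succ_eq_map, List.reverse_cons,
    enc_append, List.map_reverse, enc_cons 0 (List.map _ _)]
  simp [tau, enc]

lemma W_succ (n : ℕ) : W (n + 1) = W n ++ Rm n ++ W n := by
  simp [W, ages, blocks]

lemma iter_W (n : ℕ) : (fun w : List T => w.flatMap tau)^[n] [0] = W n := by
  have : ∀ n, sub (W n) = W (n + 1) := by
    intro n
    induction n with
    | zero => rfl
    | succ n ih =>
      rw [W_succ (n + 1)]
      nth_rw 1 [W_succ n]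
      rw [sub_append, sub_append, ih, sub_Rm]
  induction n with
  | zero => rfl
  | succ n ih => rw [Function.iterate_succ_apply', ih]; exact this n

lemma iter_no (a : T) (ha : a ≠ 0) (n : ℕ) :
    (0 : T) ∉ (fun w : List T => w.flatMap tau)^[n] [a] := by
  induction n with
  | zero => simpa using ha.symm
  | succ n ih =>
    rw [Function.iterate_succ_apply', List.mem_flatMap]
    rintro ⟨b, hb, h⟩
    have : ∀ b : T, 0 ∈ tau b → b = 0 := by decide
    exact ih (this b h ▸ hb)

def Fac (w : List T) : Prop := ∃ n, w <:+: W n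

lemma fac_of_lang {w : List T} (h : w ∈ lang (subshift tau)) (h0 : (0 : T) ∈ w) : Fac w := by
  obtain ⟨x, hx, i, e⟩ := h
  obtain ⟨n, a, h⟩ := hx i w.length
  rw [← e] at h
  by_cases ha : a = 0
  · subst ha; exact ⟨n, iter_W n ▸ h⟩
  · exact absurd (h.subset h0) (iter_no a ha n)

lemma lang_of_fac {w : List T} (h : Fac w) : w ∈ lang (subshift tau) := by
  obtain ⟨n, p, q, e⟩ := h
  obtain ⟨x, h1, h2⟩ := biinf (fun j => W (n + 2 * j)) (fun j => W (n + 2 * j) ++ Rm (n + 2 * j))
    (fun j => Rm (n + 2 * j + 1) ++ W (n + 2 * j + 1))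
    (fun j => by
      rw [show n + 2 * (j + 1) = n + 2 * j + 1 + 1 by ring, W_succ (n + 2 * j + 1),
        List.append_assoc, ← W_succ (n + 2 * j)])
    (fun j => by simp [W]) (fun j => by simp [W]) (by simp [W])
  refine ⟨x, fun i len => ?_, p.length, ?_⟩
  · obtain ⟨j, hj⟩ := h2 i len
    exact ⟨_, 0, (iter_W _).symm ▸ hj⟩
  · simp only [mul_zero, add_zero, ← e] at h1
    apply List.ext_getElem
    · simp [window]
    · intro k hk hk'
      have := congrArg (fun l => l[p.length + k]?) h1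
      simp only [window, List.getElem_map, List.getElem_range] at this ⊢
      rw [List.getElem?_map, List.getElem?_range (by simp; omega), List.append_assoc,
        List.getElem?_append_right (by omega), List.getElem?_append_left (by omega),
        Nat.add_sub_cancel_left, List.getElem?_eq_getElem hk] at this
      simpa using this.symm

lemma mem_enc {l : List ℕ} {a : T} (h : a ∈ enc l) : a = 2 ∨ a = 3 := by
  simp only [enc, List.mem_flatMap, List.mem_cons, List.mem_replicate] at h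
  obtain ⟨_, _, h | h⟩ := h
  · exact Or.inl h
  · exact Or.inr h.2

lemma no0 (l : List ℕ) : (0 : T) ∉ enc l := fun h => by rcases mem_enc h with h | h <;> simp at h
lemma no1 (l : List ℕ) : (1 : T) ∉ enc l := fun h => by rcases mem_enc h with h | h <;> simp at h
lemma no0R (m : ℕ) : (0 : T) ∉ Rm m := by simp [Rm, no0]

lemma split_first {a : T} : ∀ {g g' p p' : List T}, a ∉ g → a ∉ g' → g ++ a :: p = g' ++ a :: p' →
    g = g' ∧ p = p'
  | [], [], _, _, _, _, h => by simpa using h
  | [], b :: g', _, _, _, h2, h => by simp at h h2; exact absurd h.1 h2.1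
  | b :: g, [], _, _, h1, _, h => by simp at h h1; exact absurd h.1.symm h1.1
  | b :: g, c :: g', _, _, h1, h2, h => by
    simp only [List.cons_append, List.cons.injEq, List.mem_cons, not_or] at h h1 h2
    obtain ⟨e1, e2⟩ := split_first h1.2 h2.2 h.2
    exact ⟨by rw [h.1, e1], e2⟩

lemma block_of (g : List T) (hg : (0 : T) ∉ g) (post : List T) : ∀ (l : List ℕ) (pre : List T),
    pre ++ 0 :: (g ++ 0 :: post) = 0 :: blocks l → ∃ m, g = Rm m := by
  intro l
  induction l with
  | nil =>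
    intro pre h
    have := congrArg List.length h
    simp [blocks] at this
    omega
  | cons m l ih =>
    intro pre h
    have e : blocks (m :: l) = Rm m ++ 0 :: blocks l := by simp [blocks]
    rw [e] at h
    cases pre with
    | nil => exact ⟨m, (split_first hg (no0R m) (by simpa using h)).1⟩
    | cons b pre =>
      rw [List.cons_append, List.cons.injEq] at h
      rcases List.append_eq_append_iff.mp h.2 with ⟨a', e1, e2⟩ | ⟨c', e1, e2⟩
      · cases a' with
        | nil => exact ih [] e2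
        | cons b' a' =>
          exfalso
          apply no0R m
          rw [e1, ← (List.cons.inj e2).1]
          simp
      · exact ih c' e2.symm

lemma rep_split : ∀ (i j : ℕ) (l l' : List ℕ),
    List.replicate i (3 : T) ++ enc l = List.replicate j 3 ++ enc l' → i = j ∧ enc l = enc l'
  | 0, 0, _, _, h => ⟨rfl, h⟩
  | 0, j + 1, l, _, h => by cases l <;> simp [enc, List.replicate_succ] at h
  | i + 1, 0, _, l', h => by cases l' <;> simp [enc, List.replicate_succ] at h
  | i + 1, j + 1, l, l', h => by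
    simp only [List.replicate_succ, List.cons_append, List.cons.injEq, true_and] at h
    obtain ⟨e1, e2⟩ := rep_split i j l l' h
    exact ⟨by rw [e1], e2⟩

lemma enc_inj : ∀ {l l' : List ℕ}, enc l = enc l' → l = l'
  | [], [], _ => rfl
  | [], _ :: _, h => by simp [enc] at h
  | _ :: _, [], h => by simp [enc] at h
  | i :: l, j :: l', h => by
    rw [enc_cons, enc_cons, List.cons.injEq] at h
    obtain ⟨e1, e2⟩ := rep_split i j l l' h.2
    rw [e1, enc_inj e2]

lemma key_lemma (l0 l1 l2 l3 : List ℕ) (k k' : ℕ) (hl : l1.length = l2.length)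
    (h : Fac (0 :: (enc (l0 ++ k :: l1) ++ 1 :: enc (l2 ++ k' :: l3) ++ [0]))) :
    k = k' ∧ l0.length = l3.length := by
  obtain ⟨n, p, q, e⟩ := h
  obtain ⟨m, hm⟩ := block_of (enc (l0 ++ k :: l1) ++ 1 :: enc (l2 ++ k' :: l3))
    (by simp [no0]) q (ages n) p (by rw [← W, ← e]; simp)
  obtain ⟨e1, e2⟩ := split_first (no1 _) (no1 _) hm
  have e3 := congrArg List.reverse (enc_inj e1)
  rw [List.reverse_reverse, ← enc_inj e2, List.reverse_append, List.reverse_cons,
    List.append_assoc] at e3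
  have := (List.append_inj e3 (by simpa using hl)).2
  simp only [List.singleton_append, List.cons.injEq] at this
  exact ⟨this.1, by rw [← this.2, List.length_reverse]⟩

inductive NT (Q : Type)
  | S | A | C | Any | K | K'
  | X (i : Ins Q)
  | Y (i : Ins Q)
  | T (q : Option Q)

open Sum NT

def as {Q : Type} (k : ℕ) : List (T ⊕ NT Q) := (List.replicate k 3).map inl
def Cs {Q : Type} (k : ℕ) : List (T ⊕ NT Q) := List.replicate k (inr C)

inductive Ru {Q : Type} (I : Set (Ins Q)) : NT Q → List (T ⊕ NT Q) → Prop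
  | a0 : Ru I A []
  | a1 : Ru I A [inl 3, inr A]
  | c : Ru I C [inl 2, inr A]
  | any0 : Ru I Any []
  | any1 (t : T) : Ru I Any [inl t, inr Any]
  | k0 : Ru I K [inl 3, inr K, inl 3]
  | k1 : Ru I K [inr K', inl 2]
  | k2 : Ru I K' [inr C, inr K', inr C]
  | k3 : Ru I K' [inl 1]
  | x0 (i) : i ∈ I → Ru I (X i) (as i.a1 ++ inr (X i) :: as i.c1)
  | x1 (i) : i ∈ I → Ru I (X i) (Cs i.b2 ++ inr (Y i) :: (Cs i.d2 ++ [inl 2]))
  | y0 (i) : i ∈ I → Ru I (Y i) (Cs i.a2 ++ inr (Y i) :: Cs i.c2)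
  | y1 (i) : i ∈ I → Ru I (Y i) [inl 0, inr Any, inl 0]
  | t0 (i) : i ∈ I → Ru I (NT.T (some i.src))
      (inr K :: (as i.b1 ++ inr (X i) :: (as i.d1 ++ [inr (NT.T i.dst)])))
  | t1 : Ru I (NT.T none) []

section
variable {Q : Type} (I : Set (Ins Q)) (q0 : Q) (y0 : ℕ)

def startR : List (T ⊕ NT Q) := inl 0 :: (Cs y0 ++ [inl 2, inr (NT.T (some q0))])

def Ru' (A : NT Q) (rhs : List (T ⊕ NT Q)) : Prop := Ru I A rhs ∨ (A = S ∧ rhs = startR q0 y0)

def sem : NT Q → List T → Prop
  | S, w => (0 : T) ∈ w ∧ (Fac w → Acc I (some q0, 0, y0))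
  | A, w => ∃ i, w = List.replicate i 3
  | C, w => ∃ i, w = enc [i]
  | Any, _ => True
  | K, w => ∃ i l1 l2, l1.length = l2.length ∧
      w = List.replicate i 3 ++ (enc l1 ++ 1 :: enc l2 ++ [2]) ++ List.replicate i 3
  | K', w => ∃ l1 l2, l1.length = l2.length ∧ w = enc l1 ++ 1 :: enc l2
  | X i, w => ∃ u v l1 l2 j, l1.length = i.a2 * v + i.b2 ∧ l2.length = i.c2 * v + i.d2 ∧
      w = List.replicate (i.a1 * u) 3 ++ (enc l1 ++ 0 :: (j ++ 0 :: enc l2) ++ [2]) ++
        List.replicate (i.c1 * u) 3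
  | Y i, w => ∃ v l1 l2 j, l1.length = i.a2 * v ∧ l2.length = i.c2 * v ∧
      w = enc l1 ++ 0 :: (j ++ 0 :: enc l2)
  | NT.T q, w => ∀ l0 x, Fac (0 :: (enc (l0 ++ [x]) ++ w)) → Acc I (q, x, l0.length)

lemma sem_as (k : ℕ) (w : List T) (h : Sem (sem I q0 y0) (as k) w) : w = List.replicate k 3 :=
  sem_terms _ _ _ h

lemma sem_Cs : ∀ (k : ℕ) (w : List T), Sem (sem I q0 y0) (Cs k) w → ∃ l, l.length = k ∧ w = enc l
  | 0, _, h => ⟨[], rfl, h⟩
  | k + 1, _, ⟨_, w2, rfl, ⟨i, rfl⟩, h⟩ => by
    obtain ⟨l, rfl, rfl⟩ := sem_Cs k w2 h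
    exact ⟨i :: l, rfl, (enc_append [i] l).symm⟩

lemma Fac.inf {u v : List T} (h : Fac v) (huv : u <:+: v) : Fac u :=
  let ⟨n, hn⟩ := h; ⟨n, huv.trans hn⟩

lemma sound (N : NT Q) (rhs : List (T ⊕ NT Q)) (w : List T) (r : Ru' I q0 y0 N rhs)
    (h : Sem (sem I q0 y0) rhs w) : sem I q0 y0 N w := by
  rcases r with r | ⟨rfl, rfl⟩
  · cases r with
    | a0 => exact ⟨0, h⟩
    | a1 =>
      obtain ⟨_, rfl, _, _, rfl, ⟨i, rfl⟩, rfl⟩ := h
      exact ⟨i + 1, by simp [List.replicate_succ]⟩
    | c =>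
      obtain ⟨_, rfl, _, _, rfl, ⟨i, rfl⟩, rfl⟩ := h
      exact ⟨i, rfl⟩
    | any0 => trivial
    | any1 => trivial
    | k0 =>
      obtain ⟨_, rfl, _, _, rfl, ⟨i, l1, l2, e, rfl⟩, _, rfl, rfl⟩ := h
      refine ⟨i + 1, l1, l2, e, ?_⟩
      nth_rw 2 [List.replicate_succ']
      simp [List.replicate_succ]
    | k1 =>
      obtain ⟨_, _, rfl, ⟨l1, l2, e, rfl⟩, _, rfl, rfl⟩ := h
      exact ⟨0, l1, l2, e, by simp⟩
    | k2 =>
      obtain ⟨_, _, rfl, ⟨i, rfl⟩, _, _, rfl, ⟨l1, l2, e, rfl⟩, _, _, rfl, ⟨j, rfl⟩, rfl⟩ := h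
      exact ⟨i :: l1, l2 ++ [j], by simp [e], by simp [enc]⟩
    | k3 =>
      obtain ⟨_, rfl, rfl⟩ := h
      exact ⟨[], [], rfl, rfl⟩
    | x0 i _ =>
      obtain ⟨w1, _, rfl, h1, _, w3, rfl, ⟨u, v, l1, l2, j, e1, e2, rfl⟩, h3⟩ :=
        sem_append _ _ _ _ h
      rw [sem_as I q0 y0 _ _ h1, sem_as I q0 y0 _ _ h3]
      refine ⟨u + 1, v, l1, l2, j, e1, e2, ?_⟩
      rw [mul_add, mul_add, mul_one, mul_one, add_comm (i.a1 * u)]
      simp only [List.replicate_add, List.append_assoc, List.cons_append, List.nil_append,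
        List.append_nil, enc_append, enc_cons, show enc [] = [] from rfl]
    | x1 i _ =>
      obtain ⟨w1, _, rfl, h1, _, w3, rfl, ⟨v, l1, l2, j, e1, e2, rfl⟩, h3⟩ := sem_append _ _ _ _ h
      obtain ⟨w4, _, rfl, h4, _, rfl, rfl⟩ := sem_append _ _ _ _ h3
      obtain ⟨m1, f1, rfl⟩ := sem_Cs I q0 y0 _ _ h1
      obtain ⟨m2, f2, rfl⟩ := sem_Cs I q0 y0 _ _ h4
      exact ⟨0, v, m1 ++ l1, l2 ++ m2, j, by simp [e1, f1, add_comm], by simp [e2, f2],
        by simp [enc_append]⟩
    | y0 i _ =>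
      obtain ⟨w1, _, rfl, h1, _, w3, rfl, ⟨v, l1, l2, j, e1, e2, rfl⟩, h3⟩ := sem_append _ _ _ _ h
      obtain ⟨m1, f1, rfl⟩ := sem_Cs I q0 y0 _ _ h1
      obtain ⟨m2, f2, rfl⟩ := sem_Cs I q0 y0 _ _ h3
      exact ⟨v + 1, m1 ++ l1, l2 ++ m2, j, by simp [e1, f1]; ring, by simp [e2, f2]; ring,
        by simp [enc_append]⟩
    | y1 i _ =>
      obtain ⟨_, rfl, j, _, rfl, _, _, rfl, rfl⟩ := h
      exact ⟨0, [], [], j, rfl, rfl, rfl⟩
    | t0 i hi =>
      obtain ⟨_, _, rfl, ⟨k, m1, m2, e0, rfl⟩, h⟩ := h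
      obtain ⟨w1, _, rfl, h1, _, w3, rfl, ⟨u, v, l1, l2, j, e1, e2, rfl⟩, h3⟩ :=
        sem_append _ _ _ _ h
      obtain ⟨w4, _, rfl, h4, w5, _, rfl, h5, rfl⟩ := sem_append _ _ _ _ h3
      rw [sem_as I q0 y0 _ _ h1, sem_as I q0 y0 _ _ h4]
      intro l0 x hf
      obtain ⟨g1, g2⟩ := key_lemma l0 m1 m2 l1 (x + k) (k + (i.b1 + i.a1 * u)) e0
        (hf.inf (List.IsPrefix.isInfix ⟨j ++ 0 :: enc l2 ++ [2] ++ List.replicate (i.c1 * u) 3 ++
          List.replicate i.d1 3 ++ w5, by
            simp only [List.replicate_add, List.append_assoc, List.cons_append, List.nil_append,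
        List.append_nil, enc_append, enc_cons, show enc [] = [] from rfl]⟩))
      obtain ⟨x', y', h6⟩ := h5 l2 (i.c1 * u + i.d1) (hf.inf (List.IsSuffix.isInfix
        ⟨0 :: (enc (l0 ++ [x]) ++ (List.replicate k 3 ++ (enc m1 ++ 1 :: enc m2 ++ [2]) ++
          List.replicate k 3) ++ List.replicate i.b1 3 ++ List.replicate (i.a1 * u) 3 ++
          enc l1 ++ 0 :: j), by
            simp only [List.replicate_add, List.append_assoc, List.cons_append, List.nil_append,
        List.append_nil, enc_append, enc_cons, show enc [] = [] from rfl]⟩))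
      refine ⟨x', y', .head ⟨i, hi, u, v, ?_, rfl⟩ (e2 ▸ h6)⟩
      rw [g2, e1, show x = i.a1 * u + i.b1 by omega]
    | t1 =>
      intro l0 x _
      exact ⟨x, _, .refl⟩
  · obtain ⟨_, rfl, h⟩ := h
    obtain ⟨w1, _, rfl, h1, _, rfl, w3, _, rfl, h3, rfl⟩ := sem_append _ _ _ _ h
    obtain ⟨l, e, rfl⟩ := sem_Cs I q0 y0 _ _ h1
    refine ⟨by simp, fun hf => e ▸ h3 l 0 ?_⟩
    simpa [enc_append, enc] using hf

abbrev G (N : NT Q) (w : List T) : Prop := Gen (Ru' I q0 y0) [inr N] w

lemma g_A (i : ℕ) : G I q0 y0 A (List.replicate i 3) := by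
  induction i with
  | zero => exact .one (Or.inl .a0) .nil
  | succ i ih => exact .one (Or.inl .a1) (.t 3 ih)

lemma g_C (i : ℕ) : G I q0 y0 C (enc [i]) := by
  have := Gen.one (Or.inl .c) (.t 2 (g_A I q0 y0 i))
  simpa [enc] using this

lemma g_Cs (l : List ℕ) : Gen (Ru' I q0 y0) (Cs l.length) (enc l) := by
  induction l with
  | nil => exact .nil
  | cons i l ih =>
    have := (g_C I q0 y0 i).append ih
    rwa [← enc_append] at this

lemma g_Any (w : List T) : G I q0 y0 Any w := by
  induction w with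
  | nil => exact .one (Or.inl .any0) .nil
  | cons a w ih => exact .one (Or.inl (.any1 a)) (.t a ih)

lemma g_K' (l1 : List ℕ) : ∀ l2 : List ℕ, l1.length = l2.length →
    G I q0 y0 K' (enc l1 ++ 1 :: enc l2) := by
  induction l1 with
  | nil =>
    intro l2 h
    rw [List.length_eq_zero_iff.mp h.symm]
    exact .one (Or.inl .k3) (.t 1 .nil)
  | cons i l1 ih =>
    intro l2 h
    obtain ⟨l2', j, rfl⟩ : ∃ l2' j, l2 = l2' ++ [j] := by
      rcases List.eq_nil_or_concat l2 with rfl | ⟨a, b, rfl⟩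
      · simp at h
      · exact ⟨a, b, by simp⟩
    have := Gen.one (Or.inl .k2) (((g_C I q0 y0 i).append (ih l2' (by simpa using h))).append
      (g_C I q0 y0 j))
    simpa [enc_append, enc] using this

lemma g_K (i : ℕ) (l1 l2 : List ℕ) (h : l1.length = l2.length) :
    G I q0 y0 K (List.replicate i 3 ++ (enc l1 ++ 1 :: enc l2 ++ [2]) ++ List.replicate i 3) := by
  induction i with
  | zero =>
    have := Gen.one (Or.inl .k1) ((g_K' I q0 y0 l1 l2 h).append (.t 2 .nil))
    simpa using this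
  | succ i ih =>
    have := Gen.one (Or.inl .k0) (.t 3 (ih.append (.t 3 .nil)))
    nth_rw 2 [List.replicate_succ']
    simpa [List.replicate_succ] using this

lemma g_Y (i : Ins Q) (hi : i ∈ I) (j : List T) (v : ℕ) : ∀ l1 l2 : List ℕ, l1.length = i.a2 * v →
    l2.length = i.c2 * v → G I q0 y0 (Y i) (enc l1 ++ 0 :: (j ++ 0 :: enc l2)) := by
  induction v with
  | zero =>
    intro l1 l2 h1 h2
    rw [List.length_eq_zero_iff.mp h1, List.length_eq_zero_iff.mp h2]
    exact .one (Or.inl (.y1 i hi)) (.t 0 ((g_Any I q0 y0 j).append (.t 0 .nil)))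
  | succ v ih =>
    intro l1 l2 h1 h2
    rw [mul_add, mul_one] at h1 h2
    have a1 := g_Cs I q0 y0 (l1.take i.a2)
    have a2 := g_Cs I q0 y0 (l2.drop (i.c2 * v))
    rw [List.length_take, min_eq_left (by omega)] at a1
    rw [List.length_drop, show l2.length - i.c2 * v = i.c2 by omega] at a2
    have := Gen.one (Or.inl (.y0 i hi)) (a1.append ((ih (l1.drop i.a2) (l2.take (i.c2 * v))
      (by rw [List.length_drop]; omega) (by rw [List.length_take]; omega)).append a2))
    rw [← List.take_append_drop i.a2 l1, ← List.take_append_drop (i.c2 * v) l2, enc_append,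
      enc_append]
    simpa using this

lemma g_X (i : Ins Q) (hi : i ∈ I) (j : List T) (u v : ℕ) (l1 l2 : List ℕ)
    (h1 : l1.length = i.a2 * v + i.b2) (h2 : l2.length = i.c2 * v + i.d2) :
    G I q0 y0 (X i) (List.replicate (i.a1 * u) 3 ++ (enc l1 ++ 0 :: (j ++ 0 :: enc l2) ++ [2]) ++
      List.replicate (i.c1 * u) 3) := by
  induction u with
  | zero =>
    have a1 := g_Cs I q0 y0 (l1.take i.b2)
    have a2 := g_Cs I q0 y0 (l2.drop (i.c2 * v))
    rw [List.length_take, min_eq_left (by omega)] at a1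
    rw [List.length_drop, show l2.length - i.c2 * v = i.d2 by omega] at a2
    have := Gen.one (Or.inl (.x1 i hi)) (a1.append ((g_Y I q0 y0 i hi j v (l1.drop i.b2)
      (l2.take (i.c2 * v)) (by rw [List.length_drop]; omega)
      (by rw [List.length_take]; omega)).append (a2.append (.t 2 .nil))))
    rw [← List.take_append_drop i.b2 l1, ← List.take_append_drop (i.c2 * v) l2, enc_append,
      enc_append]
    simpa using this
  | succ u ih =>
    have := Gen.one (Or.inl (.x0 i hi)) ((Gen.terms (List.replicate i.a1 3)).append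
      (ih.append (Gen.terms (List.replicate i.c1 3))))
    rw [mul_add, mul_add, mul_one, mul_one, add_comm (i.a1 * u)]
    simpa only [List.replicate_add, List.append_assoc] using this

lemma W_mono (n d : ℕ) : W n <+: W (n + d) := by
  induction d with
  | zero => exact List.prefix_refl _
  | succ d ih =>
    rw [← add_assoc, W_succ, List.append_assoc]
    exact ih.trans (List.prefix_append _ _)

lemma W_last (n : ℕ) : ∃ p, W n = p ++ [0] := by
  induction n with
  | zero => exact ⟨[], rfl⟩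
  | succ n ih =>
    obtain ⟨p, hp⟩ := ih
    exact ⟨W n ++ Rm n ++ p, by rw [W_succ, List.append_assoc _ p, ← hp]⟩

lemma blk_in (m : ℕ) : 0 :: (Rm m ++ [0]) <:+: W (m + 1) := by
  obtain ⟨p, hp⟩ := W_last m
  refine ⟨p, blocks (ages m), ?_⟩
  rw [W_succ]
  nth_rw 1 [hp]
  simp [W]

lemma fac_join {u v : List T} (hu : Fac u) (hv : Fac v) : ∃ j, Fac (u ++ j ++ v) := by
  obtain ⟨n, p, q, e⟩ := hu
  obtain ⟨n', p', q', e'⟩ := hv
  obtain ⟨r, hr⟩ := W_mono n n'
  obtain ⟨r', hr'⟩ := W_mono n' n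
  refine ⟨q ++ r ++ Rm (n + n') ++ p', n + n' + 1, p, q' ++ r', ?_⟩
  rw [add_comm n' n] at hr'
  rw [W_succ]
  nth_rw 1 [← hr]
  rw [← hr', ← e, ← e']
  simp

lemma range_split (x y k : ℕ) : ∃ l0 l1 : List ℕ, l0.length = y ∧
    (List.range (x + k + y + 1)).reverse = l0 ++ (x + k) :: l1 ∧
    List.range (x + k + y + 1) = l1.reverse ++ (x + k) :: l0.reverse := by
  have e : List.range (x + k + y + 1) = List.range (x + k) ++ (x + k) ::
      (List.range y).map fun i => x + k + (i + 1) := by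
    rw [add_assoc (x + k), List.range_add, List.range_succ_eq_map]
    simp [Function.comp_def]
  exact ⟨((List.range y).map fun i => x + k + (i + 1)).reverse, (List.range (x + k)).reverse,
    by simp, by rw [e]; simp, by rw [e]; simp⟩

lemma complete (s : Option Q × ℕ × ℕ) (h : Acc I s) : ∃ l0 w, l0.length = s.2.2 ∧
    G I q0 y0 (NT.T s.1) w ∧ Fac (0 :: (enc (l0 ++ [s.2.1]) ++ w)) := by
  obtain ⟨x', y', h⟩ := h
  induction h using Relation.ReflTransGen.head_induction_on with
  | refl =>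
    obtain ⟨l0, l1, e0, e1, e2⟩ := range_split x' y' 0
    refine ⟨l0, [], e0, .one (Or.inl .t1) .nil, Fac.inf ⟨_, blk_in (x' + 0 + y' + 1)⟩
      (List.IsPrefix.isInfix ⟨enc l1 ++ 1 :: enc (List.range (x' + 0 + y' + 1)) ++ [0], ?_⟩)⟩
    rw [Rm, e1]
    simp [enc_append, enc_cons, enc]
  | head st _ ih =>
    obtain ⟨i, hi, u, v, rfl, rfl⟩ := st
    obtain ⟨l2, w, f1, f2, f3⟩ := ih
    obtain ⟨l0, l1, e0, e1, e2⟩ := range_split (i.a1 * u + i.b1) (i.a2 * v + i.b2) 0
    obtain ⟨j, hj⟩ := fac_join ⟨_, blk_in (i.a1 * u + i.b1 + 0 + (i.a2 * v + i.b2) + 1)⟩ f3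
    have := Gen.one (Or.inl (.t0 i hi)) ((g_K I q0 y0 0 l1 l1.reverse (by simp)).append
      ((Gen.terms (List.replicate i.b1 3)).append
        ((g_X I q0 y0 i hi j u v l0.reverse l2 (by simpa using e0) f1).append
          ((Gen.terms (List.replicate i.d1 3)).append f2))))
    refine ⟨l0, _, e0, this, ?_⟩
    rw [Rm, e1, e2] at hj
    have e3 : List.replicate (i.a1 * u + i.b1) (3 : T) =
        List.replicate i.b1 3 ++ List.replicate (i.a1 * u) 3 := by
      rw [add_comm, List.replicate_add]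
    have e4 : List.replicate (i.c1 * u + i.d1) (3 : T) =
        List.replicate (i.c1 * u) 3 ++ List.replicate i.d1 3 := List.replicate_add _ _ _
    simp only [enc_append, enc_cons, add_zero, List.replicate_zero, List.nil_append,
      List.append_nil, List.append_assoc, List.cons_append, show enc [] = [] from rfl] at hj ⊢
    rw [← List.append_assoc (List.replicate i.b1 3), ← e3,
      ← List.append_assoc (List.replicate (i.c1 * u) 3), ← e4]
    exact hj

lemma main_iff : (∃ w, G I q0 y0 S w ∧ w ∈ lang (subshift tau)) ↔ Acc I (some q0, 0, y0) := by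
  constructor
  · rintro ⟨w, h1, h2⟩
    obtain ⟨w1, _, rfl, ⟨a, b⟩, rfl⟩ := h1.sound (sem I q0 y0) (sound I q0 y0)
    rw [List.append_nil] at h2
    exact b (fac_of_lang h2 a)
  · intro h
    obtain ⟨l0, w, e, h1, h2⟩ := complete I q0 y0 _ h
    refine ⟨_, ?_, lang_of_fac h2⟩
    have a := g_Cs I q0 y0 l0
    rw [e] at a
    have := Gen.one (Or.inr ⟨rfl, rfl⟩) (.t 0 (a.append (.t 2 h1)))
    simpa [enc_append, enc] using this

lemma finite_rules (hI : I.Finite) :
    {p : NT Q × List (T ⊕ NT Q) | Ru I p.1 p.2}.Finite := by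
  have h1 : ({(A, []), (A, [inl 3, inr A]), (C, [inl 2, inr A]), (Any, []),
      (K, [inl 3, inr K, inl 3]), (K, [inr K', inl 2]), (K', [inr C, inr K', inr C]),
      (K', [inl 1]), (NT.T none, [])} : Set (NT Q × List (T ⊕ NT Q))).Finite := Set.toFinite _
  refine ((((((h1.union (Set.finite_range fun t : T => (Any, [inl t, inr Any]))).union
    (hI.image fun i => (X i, as i.a1 ++ inr (X i) :: as i.c1))).union
    (hI.image fun i => (X i, Cs i.b2 ++ inr (Y i) :: (Cs i.d2 ++ [inl 2])))).union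
    (hI.image fun i => (Y i, Cs i.a2 ++ inr (Y i) :: Cs i.c2))).union
    (hI.image fun i => (Y i, [inl 0, inr Any, inl 0]))).union
    (hI.image fun i => (NT.T (some i.src),
      inr K :: (as i.b1 ++ inr (X i) :: (as i.d1 ++ [inr (NT.T i.dst)]))))).subset ?_
  rintro ⟨N, rhs⟩ h
  cases h with
  | any1 t => exact .inl (.inl (.inl (.inl (.inl (.inr ⟨t, rfl⟩)))))
  | x0 i hi => exact .inl (.inl (.inl (.inl (.inr ⟨i, hi, rfl⟩))))
  | x1 i hi => exact .inl (.inl (.inl (.inr ⟨i, hi, rfl⟩)))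
  | y0 i hi => exact .inl (.inl (.inr ⟨i, hi, rfl⟩))
  | y1 i hi => exact .inl (.inr ⟨i, hi, rfl⟩)
  | t0 i hi => exact .inr ⟨i, hi, rfl⟩
  | _ => exact .inl (.inl (.inl (.inl (.inl (.inl (by simp))))))

lemma exists_cd [Finite Q] : ∃ cd : NT Q → ℕ, Function.Injective cd := by
  obtain ⟨e, he⟩ := exists_injective_nat (Option Q)
  let e0 : Ins Q → List ℕ := fun i =>
    [e (some i.src), e i.dst, i.a1, i.b1, i.c1, i.d1, i.a2, i.b2, i.c2, i.d2]
  have h0 : Function.Injective e0 := by
    intro i j h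
    cases i; cases j
    simp_all [e0, he.eq_iff]
  let e1 : NT Q → ℕ × List ℕ := fun N => match N with
    | S => (0, []) | A => (1, []) | C => (2, []) | Any => (3, []) | K => (4, []) | K' => (5, [])
    | X i => (6, e0 i) | Y i => (7, e0 i) | NT.T q => (8, [e q])
  have h1 : Function.Injective e1 := by
    intro N N' h
    cases N <;> cases N' <;> simp_all [e1, h0.eq_iff, he.eq_iff]
  exact ⟨fun N => Encodable.encode (e1 N), Encodable.encode_injective.comp h1⟩

end

lemma toCFG_iff (c : ℕ × List (ℕ × List (T ⊕ ℕ))) (w : List T) :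
    w ∈ (toCFG c).language ↔ Gen (fun k r => (k, r) ∈ c.2) [inr c.1] w := by
  apply language_iff (toCFG c)
  intro (k : ℕ) (r : List (T ⊕ ℕ))
  have e : (Sum.elim Symbol.terminal Symbol.nonterminal : T ⊕ ℕ → Symbol T ℕ) = toSym := by
    funext x; cases x <;> rfl
  have hi : Function.Injective (toSym : T ⊕ ℕ → Symbol T ℕ) := by
    intro x y h; cases x <;> cases y <;> simp_all [toSym]
  show (k, r) ∈ c.2 ↔ (⟨k, r.map toSym⟩ : ContextFreeRule T ℕ) ∈ (c.2.map fun r =>
    (⟨r.1, r.2.map (Sum.elim Symbol.terminal Symbol.nonterminal)⟩ : ContextFreeRule T ℕ)).toFinset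
  rw [List.mem_toFinset, List.mem_map, e]
  constructor
  · intro h; exact ⟨_, h, rfl⟩
  · rintro ⟨⟨k', r'⟩, h, e⟩
    simp only [ContextFreeRule.mk.injEq] at e
    obtain ⟨rfl, e⟩ := e
    rwa [← (List.map_injective_iff.mpr hi) e]

theorem result : ¬ ComputablePred fun c : ℕ × List (ℕ × List (Fin 4 ⊕ ℕ)) =>
    ∃ w : List (Fin 4), w ∈ (toCFG c).language ∧ w ∈ lang (subshift tau) := by
  intro hP
  obtain ⟨Q, fQ, I, q0, f, hI, hf, h0⟩ := exists_reg
  obtain ⟨cd, hcd⟩ := exists_cd (Q := Q)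
  let L := (finite_rules I hI).toFinset.toList
  have hL : ∀ p, p ∈ L ↔ Ru I p.1 p.2 := by intro p; simp [L]
  let code : ℕ → ℕ × List (ℕ × List (T ⊕ ℕ)) := fun n =>
    (cd S, (cd S, (startR q0 (f n)).map (Sum.map id cd)) ::
      L.map fun p => (cd p.1, p.2.map (Sum.map id cd)))
  have hc : Primrec code := by
    refine (Primrec.const _).pair (Primrec.list_cons.comp ((Primrec.const _).pair ?_)
      (Primrec.const _))
    have h1 : Primrec fun n => (List.range (f n)).map fun _ => (inr (cd C) : T ⊕ ℕ) :=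
      Primrec.list_map (Primrec.list_range.comp hf) (Primrec.const _).to₂
    refine (Primrec.list_cons.comp (Primrec.const (inl 0)) (Primrec.list_append.comp h1
      (Primrec.const [inl 2, inr (cd (NT.T (some q0)))]))).of_eq fun n => ?_
    simp [startR, Cs]
  apply h0
  obtain ⟨g, hg, hg'⟩ := ComputablePred.computable_iff.mp hP
  refine ComputablePred.computable_iff.mpr ⟨fun n => g (code n), hg.comp hc.to_comp, ?_⟩
  funext n
  rw [← congrFun hg' (code n), ← main_iff]
  refine propext (exists_congr fun w => and_congr_left fun _ => ?_)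
  rw [toCFG_iff]
  refine (gen_map cd hcd _ ?_ [inr S] w).symm
  intro k r
  simp only [code, List.mem_cons, List.mem_map, Prod.mk.injEq, hL]
  constructor
  · rintro (⟨rfl, rfl⟩ | ⟨p, hp, rfl, rfl⟩)
    · exact ⟨S, _, Or.inr ⟨rfl, rfl⟩, rfl, rfl⟩
    · exact ⟨p.1, p.2, Or.inl hp, rfl, rfl⟩
  · rintro ⟨N, rhs, h | ⟨rfl, rfl⟩, rfl, rfl⟩
    · exact Or.inr ⟨(N, rhs), h, rfl, rfl⟩
    · exact Or.inl ⟨rfl, rfl⟩

end Pool.Agent.Results.MP_88f7c7_lc.Undecidable
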